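import Pool.Agent.Q122.Fact.Main

set_option autoImplicit false
set_option maxRecDepth 1000000

namespace Pool.Agent.Results.MP_5a4a69_co.IndexSix

open Q122.Fact Finset

lemma valid_c0 : valid 38048661726719639553 = true := by decide +kernel

lemma not_mem_c0 : 38048661726719639553 ∉ codes := by decide +kernel

lemma mem_codes : 36301198328832 ∈ codes := by decide +kernel

/-- **Positive answer to Q1 of MP_5a4a69_co**: for `n = 6` the complete graph `K_12` has a
non-trivial `(n-3,1,1,1)`-factorisation (of index `6`). -/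
theorem result : ∃ (n : ℕ) (D : Finset (Finset (Finset (Fin (2 * n))))) (c : ℕ), 4 ≤ n ∧
    IsFactorisation n D c ∧ ∃ m, IsPerfectMatching m ∧ m ∉ D := by
  refine ⟨6, D, 6, by norm_num, ⟨?_, ?_, by norm_num, count_all⟩, ?_⟩
  · exact ⟨mt 36301198328832, Finset.mem_image_of_mem _ (List.mem_toFinset.2 mem_codes)⟩
  · intro m hm
    obtain ⟨c, hc, rfl⟩ := Finset.mem_image.1 hm
    exact valid_perfect (codes_valid (List.mem_toFinset.1 hc))
  · refine ⟨mt 38048661726719639553, valid_perfect valid_c0, ?_⟩
    intro hm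
    obtain ⟨c, hc, hcc⟩ := Finset.mem_image.1 hm
    have hc' := List.mem_toFinset.1 hc
    have h2 : c = 38048661726719639553 :=
      mt_inj (valid_lt (codes_valid hc')) (valid_lt valid_c0) hcc
    rw [h2] at hc'
    exact not_mem_c0 hc'

end Pool.Agent.Results.MP_5a4a69_co.IndexSix
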